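import Mathlib
import Pool.Agent.Lib.MP_dbb03c_co.Gen.AMain

/-!
# MP_dbb03c_co: for every target graph the threshold is at least a constant multiple of `n`

`hom` and `dH` are defined in `Pool.Agent.Lib.MP_dbb03c_co.Stmt`. The target graph is given by its finite
vertex set `V` and its symmetric adjacency relation `A` (loops allowed).
-/

set_option autoImplicit false

namespace Pool.Agent.Results.MP_dbb03c_co.LinearOrder

open Pool.Agent.Lib.MP_dbb03c_co

theorem result {V : Type} [Finite V] (A : V → V → Prop) (hA : ∀ a b, A a b → A b a) :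
    ∃ c : ℝ, 0 < c ∧ ∃ N : ℕ, ∀ n : ℕ, N ≤ n → c * n ≤ dH A n := by
  haveI : Fintype V := Fintype.ofFinite V
  exact Gen.linear hA

end Pool.Agent.Results.MP_dbb03c_co.LinearOrder
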