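import Mathlib
import Pool.Agent.Lib.MP_dbb03c_co.Gen.SFin

/-!
# MP_dbb03c_co: targets whose threshold is `2 n / k` up to a bounded error

`hom` and `dH` are defined in `Pool.Agent.Lib.MP_dbb03c_co.Stmt`.
-/

set_option autoImplicit false

namespace Pool.Agent.Results.MP_dbb03c_co.Slopes

open Pool.Agent.Lib.MP_dbb03c_co

theorem result (k : ℕ) (hk : 3 ≤ k) :
    ∃ (V : Type) (_ : Fintype V) (H : SimpleGraph V), H.Connected ∧ ∃ C : ℕ, ∀ n : ℕ, 3 ≤ n →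
      k * dH H.Adj n ≤ 2 * n + C ∧ 2 * n ≤ k * dH H.Adj n + C := by
  obtain ⟨M, C, h⟩ := Gen.slope k hk
  exact ⟨_, Fintype.ofFinite _, Gen.TgM M, Gen.Tgt_connected _ _ _, C, h⟩

end Pool.Agent.Results.MP_dbb03c_co.Slopes
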