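import Mathlib
import Pool.Agent.Lib.MP_dbb03c_co.Full.Thr

/-!
# MP_dbb03c_co: the diameter threshold of `H_0` for every number of vertices

`hom`, `TVert`, `THat`, `H0` and `IsThreshold` are defined in
`Pool.Agent.Lib.MP_dbb03c_co.Cone.Defs`.
-/

set_option autoImplicit false

namespace Pool.Agent.Results.MP_dbb03c_co.ThresholdAll

open Pool.Agent.Lib.MP_dbb03c_co.Cone

/-- For every `n ≥ 3`: `d_{H_0}(n) = n - 1` if `n ≤ 6` or `n` is even and `n ≤ 10864`,
`d_{H_0}(7) = 4`, and `d_{H_0}(n) = n - 4` otherwise. -/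
theorem result : ∀ n : ℕ, 3 ≤ n → IsThreshold H0 n
    (if n = 7 then 4 else if n ≤ 6 ∨ (n % 2 = 0 ∧ n ≤ 10864) then n - 1 else n - 4) :=
  Pool.Agent.Lib.MP_dbb03c_co.Full.threshold_all

end Pool.Agent.Results.MP_dbb03c_co.ThresholdAll
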