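import Mathlib
import Pool.Agent.Lib.MP_dbb03c_co.Gen.DFin

/-!
# MP_dbb03c_co: the threshold of an arbitrary target up to a bounded error

`hom` and `dH` are defined in `Pool.Agent.Lib.MP_dbb03c_co.Stmt`;
`AO`, `bG`, `limV`, `MVp`, `thrP` in `Gen.GDefs`. The target graph is given by its finite vertex set `V` and its
symmetric adjacency relation `A` (loops allowed).
-/

set_option autoImplicit false

namespace Pool.Agent.Results.MP_dbb03c_co.ThresholdFormula

open Filter Topology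
open Pool.Agent.Lib.MP_dbb03c_co

theorem result {V : Type} [Fintype V] (A : V → V → Prop) (hA : ∀ a b, A a b → A b a)
    (hE : ∃ a b, A a b) :
    ∃ (l : ℝ) (P : ℕ → ℝ), 0 < l ∧ (∀ p, 0 < P p) ∧
      (∀ p, Tendsto (fun m : ℕ => (hom (SimpleGraph.pathGraph (2 * m + p + 1)) A : ℝ) /
        l ^ (2 * m + p)) atTop (𝓝 (P p))) ∧
      ∀ p, (∀ j, 3 ≤ j → Gen.thrP A l j p ≠ P p) →
        ∃ k, 2 ≤ k ∧ (k = 2 ∨ Gen.thrP A l k p < P p) ∧ (∀ j, k < j → P p < Gen.thrP A l j p) ∧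
          ∃ C : ℕ, ∀ n : ℕ, 3 ≤ n → (n - 1) % 2 = p % 2 →
            k * dH A n ≤ 2 * n + C ∧ 2 * n ≤ k * dH A n + C :=
  Gen.structure_all hA hE

end Pool.Agent.Results.MP_dbb03c_co.ThresholdFormula
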